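import Pool.Agent.Helper826_VB.C
import Pool.Agent.R755.Bal.Pos

/-!
# Balancing constants of convex bodies with Gaussian barycenter at the origin
-/

set_option autoImplicit false

namespace Pool.Agent.Results.MP_0ffb5f_gt.GaussBary

open MeasureTheory ProbabilityTheory Set
open scoped Pointwise

/-- `ℝⁿ` with its Euclidean structure. -/
abbrev E (n : ℕ) := EuclideanSpace ℝ (Fin n)

/-- The standard Gaussian probability measure of a subset of `ℝⁿ`. -/
noncomputable def gauss (n : ℕ) (V : Set (E n)) : ℝ := (stdGaussian (E n)).real V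

/-- `V` is a convex body in `ℝⁿ` with the origin in its interior. -/
def IsK0 (n : ℕ) (V : Set (E n)) : Prop := IsCompact V ∧ Convex ℝ V ∧ (0 : E n) ∈ interior V

/-- The Gaussian barycenter of `V` is the origin. -/
def Centered (n : ℕ) (V : Set (E n)) : Prop := ∫ x in V, x ∂(stdGaussian (E n)) = 0

/-- The least gauge `‖∑ ε_i u_i‖_V` of a signed sum of the vectors `u_i`. -/
noncomputable def best {n m : ℕ} (V : Set (E n)) (u : Fin m → E n) : ℝ :=
  ⨅ ε : Fin m → ℤˣ, gauge V (∑ i, ((ε i : ℤ) : ℝ) • u i)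

/-- The `n`-tuples of vectors of the Euclidean unit ball of `ℝⁿ`. -/
abbrev Tup (n : ℕ) := {u : Fin n → E n // ∀ i, ‖u i‖ ≤ 1}

/-- The vector balancing constant `β(B_2^n, V)`. -/
noncomputable def beta (n : ℕ) (V : Set (E n)) : ℝ := ⨆ u : Tup n, best V u.1

/-- The bound. -/
noncomputable def g (p : ℝ) : ℝ := 10500 / p

theorem g_anti : AntitoneOn g (Ioc 0 1) := by
  intro p hp q hq hpq
  exact div_le_div_of_nonneg_left (by norm_num) hp.1 hpq

theorem best_le {n m : ℕ} (V : Set (E n)) (u : Fin m → E n) (ε : Fin m → ℤˣ) :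
    best V u ≤ gauge V (∑ i, ((ε i : ℤ) : ℝ) • u i) :=
  ciInf_le (Set.finite_range _).bddBelow ε

theorem gauss_pos (n : ℕ) (V : Set (E n)) (hV : IsK0 n V) : 0 < gauss n V :=
  Pool.Agent.R755.Bal.gauss_pos V ⟨0, hV.2.2⟩

theorem upper (n : ℕ) (hn : 1 ≤ n) (V : Set (E n)) (hV : IsK0 n V) (hb : Centered n V)
    (m : ℕ) (u : Fin m → E n) (hu : ∀ i, ‖u i‖ ≤ 1) : best V u ≤ g (gauss n V) := by
  obtain ⟨M, rfl⟩ : ∃ M, n = M + 1 := ⟨n - 1, by omega⟩
  have hp := gauss_pos _ V hV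
  obtain ⟨ε, h1, h2⟩ := Pool.Agent.Helper826_VB.balance V hV.1 hV.2.1 _ hp rfl hb u hu
  let δ : Fin m → ℤˣ := fun i => if ε i = 1 then 1 else -1
  have hδ : ∀ i, ((δ i : ℤ) : ℝ) = ε i := by
    intro i
    rcases h1 i with h | h
    · simp [δ, h]
    · have h3 : ε i ≠ 1 := by rw [h]; norm_num
      have h4 : δ i = -1 := if_neg h3
      rw [h4, h]
      simp
  refine (best_le V u δ).trans ?_
  simp_rw [hδ]
  have hg : 0 < g (gauss (M + 1) V) := div_pos (by norm_num) hp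
  apply gauge_le_of_mem hg.le
  rw [mem_smul_set_iff_inv_smul_mem₀ hg.ne']
  exact h2

theorem bdd (n : ℕ) (hn : 1 ≤ n) (V : Set (E n)) (hV : IsK0 n V) (hb : Centered n V) :
    BddAbove (range fun u : Tup n => best V u.1) := by
  refine ⟨g (gauss n V), ?_⟩
  rintro _ ⟨u, rfl⟩
  exact upper n hn V hV hb n u.1 u.2

theorem beta_le (n : ℕ) (hn : 1 ≤ n) (V : Set (E n)) (hV : IsK0 n V) (hb : Centered n V) :
    beta n V ≤ g (gauss n V) := by
  have : Nonempty (Tup n) := ⟨⟨fun _ => 0, by simp⟩⟩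
  exact ciSup_le fun u => upper n hn V hV hb n u.1 u.2

/-- The symmetric interval of half length `a`. -/
theorem interval (a : ℝ) (ha : 0 < a) :
    IsK0 1 (Metric.closedBall 0 a) ∧ Centered 1 (Metric.closedBall 0 a) ∧
      1 / a ≤ beta 1 (Metric.closedBall 0 a) := by
  have hK : IsK0 1 (Metric.closedBall 0 a) := by
    refine ⟨isCompact_closedBall _ _, convex_closedBall _ _, ?_⟩
    rw [mem_interior]
    exact ⟨Metric.ball 0 a, Metric.ball_subset_closedBall, Metric.isOpen_ball,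
      Metric.mem_ball_self ha⟩
  have hC : Centered 1 (Metric.closedBall 0 a) := Pool.Agent.Helper826_VB.ball_bary a
  refine ⟨hK, hC, ?_⟩
  let u : Tup 1 := ⟨fun _ => EuclideanSpace.single 0 1, by intro i; simp⟩
  have h1 : 1 / a ≤ best (Metric.closedBall (0 : E 1) a) u.1 := by
    apply le_ciInf
    intro ε
    rw [gauge_closedBall ha.le]
    apply div_le_div_of_nonneg_right _ ha.le
    rw [Fin.sum_univ_one, norm_smul]
    rcases Int.units_eq_one_or (ε 0) with h | h <;> simp [h, u]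
  exact h1.trans (le_ciSup (bdd 1 le_rfl _ hK hC) u)

theorem result :
    AntitoneOn g (Ioc 0 1) ∧ (∀ p ∈ Ioc (0 : ℝ) 1, 0 ≤ g p) ∧
    (∀ n : ℕ, 1 ≤ n → ∀ V : Set (E n), IsK0 n V → Centered n V →
      (∀ (m : ℕ) (u : Fin m → E n), (∀ i, ‖u i‖ ≤ 1) → best V u ≤ g (gauss n V)) ∧
      BddAbove (range fun u : Tup n => best V u.1) ∧ beta n V ≤ g (gauss n V)) ∧
    (∀ h : ℝ → ℝ,
      (∀ n : ℕ, 1 ≤ n → ∀ V : Set (E n), IsK0 n V → Centered n V → beta n V ≤ h (gauss n V)) →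
      ∀ p ∈ Ioc (0 : ℝ) (2 / 5), 2 / (5 * p) ≤ h p) := by
  refine ⟨g_anti, fun p hp => div_nonneg (by norm_num) hp.1.le,
    fun n hn V hV hb => ⟨upper n hn V hV hb, bdd n hn V hV hb, beta_le n hn V hV hb⟩, ?_⟩
  intro h hh p hp
  obtain ⟨a, ha0, ha1, hap⟩ := Pool.Agent.Helper826_VB.F_surj p hp.1 hp.2
  obtain ⟨hK, hC, hlow⟩ := interval a ha0
  have h1 := hh 1 le_rfl _ hK hC
  have h2 : gauss 1 (Metric.closedBall 0 a) = p :=
    (Pool.Agent.Helper826_VB.ball_meas a ha0.le).trans hap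
  rw [h2] at h1
  refine le_trans ?_ (hlow.trans h1)
  have h3 := Pool.Agent.Helper826_VB.F_ge a ha0.le ha1
  rw [hap] at h3
  rw [div_le_div_iff₀ (by linarith [hp.1]) ha0]
  linarith

end Pool.Agent.Results.MP_0ffb5f_gt.GaussBary
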